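import Mathlib
import Pool.Agent.X130.ER.Red

set_option autoImplicit false

namespace Pool.Agent.Results.MP_a6fa5c_lc.EdgePathsNPHard

/-- Deciding whether there is a finite simple graph with the given edge set in which all given
sequences of edges are simple paths is NP-hard. -/
theorem result : Pool.Agent.NPC.NPHardP Pool.Agent.X130.ER.EdgePaths :=
  Pool.Agent.X130.ER.hard

end Pool.Agent.Results.MP_a6fa5c_lc.EdgePathsNPHard
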